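import Pool.Agent.Hx18.HC.Stmt
import Pool.Agent.Hx18.CI.Van
import Pool.Agent.Hx18.BB.Fil

/-!
# Hartshorne's conjecture on the Chow groups of hypersurfaces: the descent
-/

set_option autoImplicit false

open CategoryTheory AlgebraicGeometry

universe u v w

namespace Pool.Agent.Hx18.HC

open Pool.Agent.H914 Pool.Agent.H914.VarClass Pool.Agent.H914.VarClass.Obj Pool.Agent.W492.BB
  Pool.Agent.W550.Corr Pool.Agent.TH133 Pool.Agent.Y148.BB Pool.Agent.Hx18.BB Pool.Agent.Hx18.CI

set_option linter.unusedSectionVars false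
set_option linter.unusedVariables false

variable {k : Type u} [Field k] {𝒱 : VarClass k}

variable {C : TheoryData.{u, v, 0} 𝒱 ℚ} [hC : IsChowProj C] {K : Type w} [Field K]
  {H : WeilTheoryData.{u, v, w} C K} [hH : IsWeilProj H] {X Y Z W T P R V S : 𝒱.Obj}
  {Q : ∀ V : 𝒱.Obj, C.A (V.prod V) → Prop} {N : ∀ X : 𝒱.Obj, ℕ → Submodule ℚ (C.A X)}
  {D : ℕ∞}

include hC hH

lemma pure_motive {q : C.A (V.prod V)} (h : IsPrimitiveMotive H Q V q) :
    IsPure H V.dim V q where
  dim_eq := rfl
  deg := h.deg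
  idem := h.idem
  self_dual := h.self_dual
  kills := fun m hm a ha => h.kills m (by exact_mod_cast hm) a ha

lemma pure_piece (hQ : ∀ V q, Q V q → IsPrimitiveMotive H Q V q) {r : C.A (T.prod T)}
    (h : IsPiece Q T r) : IsPure H T.dim T r := by
  rcases h with h | ⟨o, hT, ho, hd, rfl⟩
  · exact pure_motive (hQ _ _ h)
  · rw [hT]
    exact isPure_curve hT ho (degreeOne_iff.1 hd)

lemma pos_piece (hQ : ∀ V q, Q V q → IsPrimitiveMotive H Q V q) {r : C.A (T.prod T)}
    (h : IsPiece Q T r) : 1 ≤ T.dim := by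
  rcases h with h | ⟨o, hT, -, -, -⟩
  · exact one_le_two.trans (hQ _ _ h).two_le
  · exact hT.ge

omit hH in
lemma good_fix {q : C.A (V.prod V)} {i : T ⟶ V} {r : C.A (T.prod T)} (hi : IsGood Q q i r)
    (hq : tp C q = q) {z : C.A V} (hz : C.act q z = z) :
    C.act r (C.pull i z) = C.pull i z := by
  obtain ⟨o, ho, hd⟩ := exists_point C V
  have h2 : C.comp (C.ext (1 : C.A V) z) q = C.ext (1 : C.A V) z := by rw [ext_comp, hz]
  have e0 : C.pull (prodMap (𝟙 V) i) (C.ext (1 : C.A V) z) =
      C.ext (1 : C.A V) (C.pull i z) := by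
    rw [TheoryData.ext, map_mul, ← C.pull_comp, ← C.pull_comp, prodMap_fst, prodMap_snd,
      C.pull_comp, C.pull_comp, map_one, map_one, TheoryData.ext, map_one]
  have e3 := good_comp hi hq h2
  rw [e0, ext_comp] at e3
  rw [← act_ext_one hd (C.act r (C.pull i z)), e3, act_ext_one hd]

/-- The step of the descent. -/
lemma step (hQ : ∀ V q, Q V q → IsPrimitiveMotive H Q V q) {q : C.A (V.prod V)} (hq : Q V q)
    {j : ℕ} (hj : 2 * j ≤ V.dim) {z : C.A V} (hz : C.Deg j z) (hqz : C.act q z = z)
    (hgood : ∀ (T : 𝒱.Obj) (i : T ⟶ V) (r : C.A (T.prod T)), IsGood Q q i r → C.up i z = 0)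
    (hlow : ∀ (T : 𝒱.Obj) (i : T ⟶ V) (r : C.A (T.prod T)), IsMember Q q i r → ∀ j' : ℕ,
      j' + 1 = j → ∀ y : C.A T, C.Deg j' y → C.act r y = y → y = 0) : z = 0 := by
  have hb := hQ V q hq
  obtain ⟨o, ho, hd⟩ := exists_point C V
  have h5 := hb.pencils j z hz hqz hgood
  have h6 : Submodule.span ℚ {c | ∃ (T : 𝒱.Obj) (i : T ⟶ V) (r : C.A (T.prod T))
      (w : C.A T), IsMember Q q i r ∧ C.Deg ((j : ℤ) - 1) w ∧ c = C.down i w} ≤
      LinearMap.ker (C.actL q) := by
    rw [Submodule.span_le]
    rintro c ⟨T, i, r, y, hi, hyd, rfl⟩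
    rw [SetLike.mem_coe, LinearMap.mem_ker]
    change C.act q (C.push i y) = 0
    have hdim := hi.dim_eq
    have hpure := pure_piece hQ hi.piece
    have e5 : C.comp (C.push (prodMap (𝟙 V) i) (C.ext (1 : C.A V) y)) q = 0 := by
      refine member_comp hi ?_ ?_
      · rw [ext_comp]
        have e1 : C.act r (C.act r y) = C.act r y := by rw [← C.act_comp, hpure.idem]
        have e2 : C.act r y ∈ C.gr T ((j : ℤ) - 1) := act_memZ hpure.deg hyd (by ring)
        have e3 : C.act r y = 0 := by
          rcases Nat.eq_zero_or_pos j with h0 | h0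
          · subst h0
            rw [C.gr_neg _ _ (by norm_num)] at e2
            exact (Submodule.mem_bot ℚ).1 e2
          · exact hlow T i r hi (j - 1) (by omega) _
              (mem_of_eq e2 (by push_cast [Nat.cast_sub (Nat.succ_le_of_lt h0)]; ring)) e1
        rw [e3, TheoryData.ext_zero_right]
      · intro l m a hlm hm ha
        rw [tp_ext]
        have e1 : y * a ∈ C.gr T ((j : ℤ) - 1 + l) := C.mul_mem hyd ha
        refine act_ext_zero_of_lt e1 ?_
        omega
    rw [← comp_graph, ext_comp, ext_comp, C.act_graph] at e5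
    rw [← act_ext_one hd (C.act q (C.push i y)), e5, C.act_zero]
  have h9 := h6 h5
  rw [LinearMap.mem_ker, TheoryData.actL_apply, hqz] at h9
  exact h9

/-- The vanishing properties follow from the injectivity of the Abel-Jacobi maps. -/
theorem van_motive (hN : IsAbelJacobiKernel H N) (hQ : ∀ V q, Q V q → IsPrimitiveMotive H Q V q)
    (hinj : ∀ j : ℕ, 2 ≤ j → (j : ℕ∞) ≤ D → ∀ (V : 𝒱.Obj) (q : C.A (V.prod V)), Q V q →
      V.dim + 1 = 2 * j → ∀ z ∈ N V j, C.act q z = z → z = 0) :
    ∀ (m : ℕ) (T : 𝒱.Obj) (r : C.A (T.prod T)), IsPiece Q T r →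
      T.dim = m → Van H N D T.dim T r := by
  intro m
  induction m with
  | zero =>
    intro T r h hT
    have := pos_piece hQ h
    omega
  | succ m ih =>
    intro V q h hV
    rcases h with h | ⟨o, hT1, ho, hd, rfl⟩
    swap
    · rw [hT1]
      exact van_curve_piece hN hT1 ho (degreeOne_iff.1 hd)
    have hb := hQ _ _ h
    have htwo := hb.two_le
    have hr := pure_motive hb
    have hV' : ∀ (T : 𝒱.Obj) (r : C.A (T.prod T)), IsPiece Q T r → T.dim + 1 = V.dim →
        Van H N D T.dim T r := fun T' r' h' hd' => ih T' r' h' (by omega)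
    have key : ∀ (j : ℕ) (hj : (j : ℕ∞) ≤ D) (z : C.A V) (hz : C.Deg j z)
        (hqz : C.act q z = z) (hh : 2 * j < V.dim ∨ (2 * j = V.dim ∧ H.cl z = 0)), z = 0 := by
      intro j hj z hz hqz hh
      have hj1 : ∀ i : ℕ, i ≤ j → (i : ℕ∞) ≤ D := fun i hi =>
        ((by exact_mod_cast hi : (i : ℕ∞) ≤ (j : ℕ∞))).trans hj
      have hcl : H.cl z = 0 := by
        rcases hh with hh | hh
        · rw [← hqz, cl_act]
          refine hr.kills (2 * j) ?_ _ (H.cl_mem hz)
          omega
        · exact hh.2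
      refine step hQ h (by omega) hz hqz ?_ ?_
      · intro T i r hi
        have hdim := hi.dim_eq
        have e4 := good_fix hi hb.self_dual hqz
        change C.pull i z = 0
        have hwd : C.pull i z ∈ C.gr T j := C.pull_mem _ hz
        have hclw : H.cl (C.pull i z) = 0 := by rw [H.cl_pull, hcl, map_zero]
        have hVT := hV' T r hi.piece hdim
        rcases lt_trichotomy (2 * j) T.dim with hlt | heq | hgt
        · exact hVT.low j hj hlt _ hwd e4
        · exact hVT.mid j hj heq _ hwd e4 hclw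
        · refine hVT.high j hj (by omega) _ ?_ e4
          have hzN : z ∈ N V j := by
            rw [← hqz]
            refine hN.kills _ _ j j _ (mem_of_eq hr.deg (by ring)) ?_ z hz hcl
            intro a ha
            exact hr.kills _ (by omega) a ha
          have h6 := hN.stable V T j j (C.cograph i) (mem_of_eq (cograph_mem _) (by ring)) z hzN
          rwa [C.act_cograph] at h6
      · intro T i r hi j' hj' y hy hry
        have hdim := hi.dim_eq
        exact (hV' T r hi.piece hdim).low j' (hj1 j' (by omega)) (by omega) y hy hry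
    refine ⟨?_, ?_, ?_⟩
    · intro j hj hjn z hz hpz
      exact key j hj z hz hpz (Or.inl hjn)
    · intro j hj hjn z hz hpz hcl
      exact key j hj z hz hpz (Or.inr ⟨hjn, hcl⟩)
    · intro j hj hjn z hz hpz
      exact hinj j (by omega) hj V q h (by omega) z hz hpz

/-- The descent from a single dimension. -/
theorem vanishes_of (hN : IsAbelJacobiKernel H N)
    (hQ : ∀ V q, Q V q → IsPrimitiveMotive H Q V q) {i : ℕ}
    (h : ∀ j : ℕ, 2 ≤ j → j ≤ i → ∀ (V : 𝒱.Obj) (q : C.A (V.prod V)), Q V q →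
      V.dim = 2 * j + 1 → Vanishes q j) : ∀ j : ℕ, j ≤ i → ∀ (m : ℕ) (V : 𝒱.Obj)
      (q : C.A (V.prod V)), Q V q → V.dim = m → 2 * j < V.dim → Vanishes q j := by
  intro j
  induction j with
  | zero =>
    intro _ m V q hq _ _ z hz hqz
    have hb := hQ V q hq
    have htwo := hb.two_le
    exact zero_codim (by omega) (pure_motive hb) (by exact_mod_cast hz) hqz
  | succ j ihj =>
    intro hji m
    induction m with
    | zero => intro V q hq hV hd; omega
    | succ m ihm =>
      intro V q hq hV hd z hz hqz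
      rcases Nat.eq_zero_or_pos j with hj0 | hj0
      · -- divisors
        subst hj0
        have hv := van_motive (D := ((1 : ℕ) : ℕ∞)) hN hQ (fun j hj hj1 => by
          have : j ≤ 1 := by exact_mod_cast hj1
          omega) V.dim V q (Or.inl hq) rfl
        exact hv.low 1 le_rfl (by omega) z hz hqz
      rcases Nat.lt_or_ge (2 * (j + 1) + 1) V.dim with h1 | h1
      swap
      · exact h (j + 1) (by omega) hji V q hq (by omega) z hz hqz
      refine step hQ hq (by omega) hz hqz ?_ ?_
      · intro T i' r hi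
        have hdim := hi.dim_eq
        have e4 := good_fix hi (hQ V q hq).self_dual hqz
        rcases hi.piece with hT | ⟨o, hT1, -, -, -⟩
        · exact ihm T r hT (by omega) (by omega) _ (C.pull_mem _ hz) e4
        · omega
      · intro T i' r hi j' hj' y hy hry
        obtain rfl : j' = j := by omega
        have hdim := hi.dim_eq
        rcases hi.piece with hT | ⟨o, hT1, -, -, -⟩
        · exact ihj (by omega) T.dim T r hT rfl (by omega) y hy hry
        · omega

/-- The Chow groups of a variety and of its primitive motive. -/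
theorem generated_of {q : C.A (V.prod V)} (hp : IsPure H V.dim V q) {h : C.A V}
    (hh : IsPrimitivePart h q) {i : ℕ} (hv : Vanishes q i) : IsGeneratedByPower h i := by
  intro z hz
  obtain ⟨hh1, hh2⟩ := hh
  have hpow : ∀ n : ℕ, h ^ n ∈ C.gr V n := by
    intro n
    induction n with
    | zero => rw [pow_zero]; exact_mod_cast C.one_mem V
    | succ n ih =>
      rw [pow_succ]
      exact mem_of_eq (C.mul_mem ih hh1) (by push_cast; ring)
  have h1 : C.act q z = 0 := by
    refine hv _ (act_mem00 (H := H) hp.deg hz) ?_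
    rw [← C.act_comp, hp.idem]
  have h2 : Submodule.span ℚ {c | ∃ l n : ℕ, l + n = V.dim ∧ c = box (pow h l) (pow h n)} ≤
      (Submodule.span ℚ {h ^ i}).comap ((actB C (X := V) (Y := V)).flip z) := by
    rw [Submodule.span_le]
    rintro c ⟨l, n, hln, rfl⟩
    rw [SetLike.mem_coe, Submodule.mem_comap]
    change C.act (C.ext (h ^ l) (h ^ n)) z ∈ Submodule.span ℚ {h ^ i}
    have h3 : h ^ l * z ∈ C.gr V ((l : ℤ) + i) := C.mul_mem (hpow l) hz
    by_cases hni : n = i
    · subst hni
      obtain ⟨c, hc⟩ := exists_hasDegree (C := C) (mem_of_eq h3 (by exact_mod_cast hln))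
      rw [act_ext' hc]
      exact Submodule.smul_mem _ _ (Submodule.mem_span_singleton_self _)
    · rw [act_ext_zero_of_lt h3 (by omega)]
      exact Submodule.zero_mem _
  have h4 := h2 hh2
  rw [Submodule.mem_comap] at h4
  change C.act (dg C V - q) z ∈ Submodule.span ℚ {h ^ i} at h4
  rw [C.act_sub, act_dg C, h1, sub_zero] at h4
  obtain ⟨c, hc⟩ := Submodule.mem_span_singleton.1 h4
  exact ⟨c, hc.symm⟩

theorem homInjective_of {q : C.A (V.prod V)} (hp : IsPure H V.dim V q) {h : C.A V}
    (hh : IsPrimitivePart h q) {i : ℕ}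
    (hv : ∀ z : C.A V, C.Deg i z → C.act q z = z → H.cl z = 0 → z = 0) : HomInjective H V i := by
  intro z hz hcl
  obtain ⟨hh1, hh2⟩ := hh
  have hpow : ∀ n : ℕ, h ^ n ∈ C.gr V n := by
    intro n
    induction n with
    | zero => rw [pow_zero]; exact_mod_cast C.one_mem V
    | succ n ih =>
      rw [pow_succ]
      exact mem_of_eq (C.mul_mem ih hh1) (by push_cast; ring)
  have h1 : C.act q z = 0 := by
    refine hv _ (act_mem00 (H := H) hp.deg hz) ?_ (BB.act_hom hcl)
    rw [← C.act_comp, hp.idem]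
  have h2 : Submodule.span ℚ {c | ∃ l n : ℕ, l + n = V.dim ∧ c = box (pow h l) (pow h n)} ≤
      LinearMap.ker ((actB C (X := V) (Y := V)).flip z) := by
    rw [Submodule.span_le]
    rintro c ⟨l, n, hln, rfl⟩
    rw [SetLike.mem_coe, LinearMap.mem_ker]
    change C.act (C.ext (h ^ l) (h ^ n)) z = 0
    exact BB.act_dec (H := H) hz hcl n _ _ (mem_of_eq (hpow l) (by push_cast [← hln]; ring))
  have h4 := LinearMap.mem_ker.1 (h2 hh2)
  change C.act (dg C V - q) z = 0 at h4
  rwa [C.act_sub, act_dg C, h1, sub_zero] at h4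

omit hC hH in
/-- **Main theorem.** -/
theorem main (C : TheoryData.{u, v, 0} 𝒱 ℚ) [IsChowProj C] {K : Type w} [Field K]
    (H : WeilTheoryData.{u, v, w} C K) [IsWeilProj H] (N : Family C) (hN : IsAJKernel H N)
    (Q : ∀ V : 𝒱.Obj, C.A (V.prod V) → Prop)
    (hQ : ∀ V q, Q V q → IsPrimitiveMotive H Q V q) (i : ℕ) :
    ((∀ j : ℕ, 2 ≤ j → j ≤ i → ∀ (V : 𝒱.Obj) (q : C.A (V.prod V)), Q V q →
        V.dim = 2 * j + 1 → Vanishes q j) →
      ∀ (V : 𝒱.Obj) (q : C.A (V.prod V)) (h : C.A V), Q V q → IsPrimitivePart h q →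
        2 * i < V.dim → IsGeneratedByPower h i) ∧
    ((∀ j : ℕ, 2 ≤ j → j ≤ i → AJInjectiveIn Q N j) →
      ∀ (V : 𝒱.Obj) (q : C.A (V.prod V)) (h : C.A V), Q V q → IsPrimitivePart h q →
        (2 * i < V.dim → IsGeneratedByPower h i) ∧ (2 * i = V.dim → HomInjective H V i)) := by
  constructor
  · intro hyp V q h hq hh hd
    exact generated_of (pure_motive (hQ V q hq)) hh
      (vanishes_of (kernel_of hN) hQ hyp i le_rfl V.dim V q hq rfl hd)
  · intro hyp V q h hq hh
    have hv := van_motive (D := (i : ℕ∞)) (kernel_of hN) hQ (fun j hj hji V q hq hd z hz hqz =>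
      hyp j hj (by exact_mod_cast hji) V q hq hd z hz hqz) V.dim V q (Or.inl hq) rfl
    exact ⟨fun hd => generated_of (pure_motive (hQ V q hq)) hh fun z hz hqz =>
        hv.low i le_rfl hd z hz hqz,
      fun hd => homInjective_of (pure_motive (hQ V q hq)) hh fun z hz hqz hcl =>
        hv.mid i le_rfl hd z hz hqz hcl⟩

end Pool.Agent.Hx18.HC
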