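import Pool.Agent.Hx18.CI.Stmt

/-!
# Hartshorne's conjecture on the Chow groups of hypersurfaces: definitions
-/

set_option autoImplicit false

open CategoryTheory AlgebraicGeometry

universe u v w

namespace Pool.Agent.Hx18.HC

open Pool.Agent.H914 Pool.Agent.H914.VarClass Pool.Agent.H914.VarClass.Obj Pool.Agent.W492.BB
  Pool.Agent.W550.Corr Pool.Agent.TH133 Pool.Agent.Hx18.BB Pool.Agent.Hx18.CI

noncomputable section

variable {k : Type u} [Field k] {𝒱 : VarClass k} {C : TheoryData.{u, v, 0} 𝒱 ℚ} {T V : 𝒱.Obj}

/-- The theorem on Lefschetz pencils on `V` over an uncountable algebraically closed field (Bloch,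
Srinivas): a class of the motive `(V, q)` whose restrictions to all the good sections vanish is a
combination of push-forwards of classes on members. The good sections `T ⟶ V` include the smooth
hyperplane sections, and the members include the resolutions of the components of the hyperplane
sections with one node. -/
def PencilTheorem (Q : ∀ V : 𝒱.Obj, C.A (V.prod V) → Prop) (q : C.A (V.prod V)) : Prop :=
  ∀ (j : ℤ) (z : C.A V), C.Deg j z → C.act q z = z →
    (∀ (T : 𝒱.Obj) (i : T ⟶ V) (r : C.A (T.prod T)), IsGood Q q i r → C.up i z = 0) →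
    InSpan (fun c => ∃ (T : 𝒱.Obj) (i : T ⟶ V) (r : C.A (T.prod T)) (w : C.A T),
      IsMember Q q i r ∧ C.Deg (j - 1) w ∧ c = C.down i w) z

/-- The Chow group of codimension `i` of the motive `(V, q)` vanishes. -/
def Vanishes (q : C.A (V.prod V)) (i : ℕ) : Prop :=
  ∀ z : C.A V, C.Deg i z → C.act q z = z → z = 0

/-- The power `h^n` of a divisor class. -/
def pow (h : C.A V) (n : ℕ) : C.A V := h ^ n

/-- `(V, q)` is the primitive motive of `V` with respect to the divisor class `h`: the
correspondence `Δ_V - q` is a combination of the products `h^l × h^n`. -/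
def IsPrimitivePart (h : C.A V) (q : C.A (V.prod V)) : Prop :=
  C.Deg 1 h ∧
    InSpan (fun c => ∃ l n : ℕ, l + n = V.dim ∧ c = box (pow h l) (pow h n)) (diag C V - q)

/-- The Chow group of codimension `i` of `V` is generated by `h^i`. -/
def IsGeneratedByPower (h : C.A V) (i : ℕ) : Prop :=
  ∀ z : C.A V, C.Deg i z → ∃ c : ℚ, z = c • pow h i

variable {K : Type w} [Field K] (H : WeilTheoryData.{u, v, w} C K)

/-- The motive `(V, q)`, `dim V = m ≥ 2`, is the primitive motive of a hypersurface (or of the
resolution of a hypersurface with one node): `q` is a self-dual projector acting as zero on `H^i(V)`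
for `i ≠ m`, and the theorem on Lefschetz pencils holds. For a smooth hypersurface of degree `d`
with hyperplane class `h`, `q = Δ_V - (1/d) (h^m × 1 + h^(m-1) × h + ⋯ + 1 × h^m)`. -/
structure IsPrimitiveMotive (Q : ∀ V : 𝒱.Obj, C.A (V.prod V) → Prop) (V : 𝒱.Obj)
    (q : C.A (V.prod V)) : Prop where
  two_le : 2 ≤ V.dim
  deg : C.Deg V.dim q
  idem : cmp q q = q
  self_dual : transp q = q
  kills : ∀ i : ℤ, i ≠ V.dim → Kills H q i
  pencils : PencilTheorem Q q

/-- The homologically trivial classes of codimension `i` on `V` are zero. -/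
def HomInjective (V : 𝒱.Obj) (i : ℕ) : Prop :=
  ∀ z : C.A V, C.Deg i z → HomTrivial H z → z = 0

/-- The Abel-Jacobi map is injective on the cycles of codimension `i` of the motives `(V, q)` of
dimension `2 i - 1`. -/
def AJInjectiveIn (Q : ∀ V : 𝒱.Obj, C.A (V.prod V) → Prop) (N : Family C) (i : ℕ) : Prop :=
  ∀ (V : 𝒱.Obj) (q : C.A (V.prod V)), Q V q → V.dim + 1 = 2 * i →
    ∀ z : C.A V, N.Mem i z → C.act q z = z → z = 0

end

end Pool.Agent.Hx18.HC
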